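import Pool.Agent.Q74.BH.Stm

/-! # Project BH: small intervals (JOB LowK) -/

set_option autoImplicit false

namespace Pool.Agent.Q154.BH

open Finset
open Pool.Agent.Q74.KP
open Pool.Agent.Q74.SF
open Pool.Agent.Q74.BH
open Pool.Agent.Q74.AR (oc)
open Pool.Agent.Q158.Col4 (cI)

/-- the average over the points `x + h_i` of an interval is near the averages over a period -/
theorem Ab_near {k H L t : ℕ} (hH : 1 ≤ H) (hL : 1 ≤ L) (a : ℤ) (π : Fin k → Fin k) {G : (Fin k → ℤ) → ℝ}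
    (hG : ∀ z, |G z| ≤ 1) {c e : ℝ}
    (h : ∀ h : Fin k → Fin H, |EE t (fun n => Ph π G (Vv (fun _ => 0) (fun i => ((h i : ℕ) : ℤ)) t n)) - c| ≤ e) :
    |Pool.Agent.Q74.BH.Ab k H L t a (Ph π G) - c| ≤ 2 * 2 ^ t / L + e := by
  have hL0 : (0 : ℝ) < L := by exact_mod_cast hL
  have hH0 : (0 : ℝ) < (H : ℝ) ^ k := by
    have : (0 : ℝ) < H := by exact_mod_cast hH
    positivity
  have hV : ∀ (x : ℤ) (h : Fin k → Fin H), V0 t x h = Vv (fun _ => 0) (fun i => ((h i : ℕ) : ℤ)) t x := by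
    intro x h
    funext i
    unfold V0 Vv Lv
    rw [yy_zero]
    simp
  have e1 : Pool.Agent.Q74.BH.Ab k H L t a (Ph π G) = (∑ h : Fin k → Fin H, (∑ x ∈ Ico a (a + L),
      Ph π G (Vv (fun _ => 0) (fun i => ((h i : ℕ) : ℤ)) t x)) / L) / (H : ℝ) ^ k := by
    unfold Pool.Agent.Q74.BH.Ab
    rw [sum_comm, ← sum_div, div_div]
    congr 1
    exact sum_congr rfl fun h _ => sum_congr rfl fun x _ => by rw [hV]
  have h1 : ∀ h : Fin k → Fin H, |(∑ x ∈ Ico a (a + L),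
      Ph π G (Vv (fun _ => 0) (fun i => ((h i : ℕ) : ℤ)) t x)) / L - c| ≤ 2 * 2 ^ t / L + e := by
    intro g
    have hper : Pe t (fun n => Ph π G (Vv (fun _ => 0) (fun i => ((g i : ℕ) : ℤ)) t n)) := by
      have := Pe_mul (pat_per π (fun _ => 0) (fun i => ((g i : ℕ) : ℤ)) t)
        (Pe_Lv (fun _ => 0) (fun i => ((g i : ℕ) : ℤ)) t G)
      exact this
    have h2 := count_bd hper (fun n => Ph_abs π hG _) 1 0 (by norm_num) a L
    simp only [one_mul, add_zero] at h2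
    have h3 := h g
    have h4 : |(∑ x ∈ Ico a (a + L), Ph π G (Vv (fun _ => 0) (fun i => ((g i : ℕ) : ℤ)) t x)) / L -
        EE t (fun n => Ph π G (Vv (fun _ => 0) (fun i => ((g i : ℕ) : ℤ)) t n))| ≤ 2 * 2 ^ t / L := by
      rw [le_div_iff₀ hL0]
      refine le_trans (le_of_eq ?_) h2
      rw [← abs_of_pos hL0, ← abs_mul, abs_of_pos hL0]
      congr 1
      field_simp
    have h5 := abs_sub_le ((∑ x ∈ Ico a (a + L), Ph π G (Vv (fun _ => 0) (fun i => ((g i : ℕ) : ℤ)) t x)) / L)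
      (EE t (fun n => Ph π G (Vv (fun _ => 0) (fun i => ((g i : ℕ) : ℤ)) t n))) c
    linarith
  rw [e1]
  have h2 := avg_sub_le hH h1
  rwa [avg_const hH] at h2

/-- JOB LowK -/
theorem lowK (hF : S_Fix) (hC : S_Cont) (_hV : S_Conv) : S_LowK := by
  intro k Λ ε hΛ hε
  obtain ⟨ρ, hρ, t₁, hfix⟩ := hF k Λ (ε / 3) hΛ (by positivity)
  obtain ⟨C, hC0, hcont⟩ := hC k
  obtain ⟨κ₁, hκ, hκ1, hκ2, hκ3⟩ : ∃ κ₁ : ℝ, 0 < κ₁ ∧ κ₁ ≤ 1 / 2 ∧ κ₁ ≤ ρ * cI ∧
      C ^ 2 * κ₁ ≤ (ε / 3) ^ 2 / 4 := by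
    have hcI := cI_pos
    refine ⟨min (1 / 2) (min (ρ * cI) ((ε / 3) ^ 2 / 4 / C ^ 2)), by positivity, min_le_left _ _,
      (min_le_right _ _).trans (min_le_left _ _), ?_⟩
    have := (min_le_right (1 / 2) (min (ρ * cI) ((ε / 3) ^ 2 / 4 / C ^ 2))).trans (min_le_right _ _)
    rw [le_div_iff₀ (by positivity)] at this
    linarith
  obtain ⟨t₂, ht₂⟩ := exists_nat_ge (4 * C ^ 2 / (ε / 3) ^ 2)
  obtain ⟨Q, hQ⟩ := exists_nat_ge (6 / ε)
  refine ⟨κ₁, hκ, max t₁ (t₂ + 1), Q, fun t ht H hH hH1 a L hL1 hL π G hG hGL => ?_⟩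
  have ht1 : t₁ ≤ t := le_trans (le_max_left _ _) ht
  have ht2 : t₂ + 1 ≤ t := le_trans (le_max_right _ _) ht
  have ht0 : (0 : ℝ) < t := by
    have : 0 < t := by omega
    exact_mod_cast this
  have ht2r : (t₂ : ℝ) ≤ t := by exact_mod_cast (by omega : t₂ ≤ t)
  have hlog : 0 ≤ Real.log H := Real.log_nonneg (by exact_mod_cast hH)
  have hL0 : (0 : ℝ) < L := by exact_mod_cast hL1
  set m := ⌊cI * Real.log H⌋₊ with hm
  have hm1 : (m : ℝ) ≤ κ₁ * t := (Nat.floor_le (mul_nonneg cI_pos.le hlog)).trans hH1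
  have hmt : m ≤ t := by
    have : (m : ℝ) ≤ t := by nlinarith
    exact_mod_cast this
  -- the fixed points
  have hHexp : (H : ℝ) ≤ Real.exp (ρ * t) := by
    have hH0 : (0 : ℝ) < H := by exact_mod_cast hH
    rw [← Real.exp_log hH0]
    apply Real.exp_le_exp.2
    have h1 : cI * Real.log H ≤ cI * (ρ * t) := by
      calc cI * Real.log H ≤ κ₁ * t := hH1
        _ ≤ ρ * cI * t := mul_le_mul_of_nonneg_right hκ2 ht0.le
        _ = cI * (ρ * t) := by ring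
    exact le_of_mul_le_mul_left h1 cI_pos
  have h1 : ∀ h : Fin k → Fin H, |EE t (fun n => Ph π G (Vv (fun _ => 0) (fun i => ((h i : ℕ) : ℤ)) t n)) -
      CG (Fm π G) t 0| ≤ ε / 3 := by
    intro h
    refine hfix t ht1 (fun _ => 0) (fun i => ((h i : ℕ) : ℤ)) ⟨fun i j => ?_, fun i j _ => ?_⟩ π G hG hGL
    · rw [sub_self, zero_mul]
      positivity
    · rw [Nat.sub_self, pow_zero, one_mul, one_mul]
      refine le_trans ?_ hHexp
      have hi : ((h i : ℕ) : ℝ) ≤ H := by exact_mod_cast (h i).2.le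
      have hj : ((h j : ℕ) : ℝ) ≤ H := by exact_mod_cast (h j).2.le
      have hi0 : (0 : ℝ) ≤ ((h i : ℕ) : ℝ) := Nat.cast_nonneg _
      have hj0 : (0 : ℝ) ≤ ((h j : ℕ) : ℝ) := Nat.cast_nonneg _
      push_cast
      rw [abs_le]
      constructor <;> linarith
  have h2 := Ab_near hH hL1 a π hG h1
  have h2' : 2 * 2 ^ t / (L : ℝ) ≤ ε / 3 := by
    rw [div_le_iff₀ hL0]
    have h3 : ((Q * 2 ^ t : ℕ) : ℝ) ≤ L := by exact_mod_cast hL
    push_cast at h3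
    rw [div_le_iff₀ hε] at hQ
    have h4 : (6 : ℝ) * 2 ^ t ≤ Q * ε * 2 ^ t := mul_le_mul_of_nonneg_right hQ (by positivity)
    have h5 : ε * (Q * 2 ^ t) ≤ ε * L := mul_le_mul_of_nonneg_left h3 hε.le
    linarith
  -- the first `m` steps
  have h3 := hcont π G hG (t - m) m 0
  rw [Nat.add_sub_cancel' hmt] at h3
  have h4 : C * √((m : ℝ) + 1) / √(((t - m : ℕ) : ℝ) + 1) ≤ ε / 3 := by
    rw [div_le_iff₀ (Real.sqrt_pos.2 (by positivity))]
    have h5 : C ^ 2 * ((m : ℝ) + 1) ≤ (ε / 3) ^ 2 * (((t - m : ℕ) : ℝ) + 1) := by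
      rw [Nat.cast_sub hmt]
      have h6 : C ^ 2 * (m : ℝ) ≤ (ε / 3) ^ 2 / 4 * t := by
        calc C ^ 2 * (m : ℝ) ≤ C ^ 2 * (κ₁ * t) := mul_le_mul_of_nonneg_left hm1 (by positivity)
          _ = C ^ 2 * κ₁ * t := by ring
          _ ≤ _ := mul_le_mul_of_nonneg_right hκ3 ht0.le
      have h7 : 4 * C ^ 2 ≤ t * (ε / 3) ^ 2 := by
        have := ht₂.trans ht2r
        rwa [div_le_iff₀ (by positivity)] at this
      have h8 : (m : ℝ) ≤ t / 2 := by nlinarith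
      have h9 : 0 < (ε / 3) ^ 2 := by positivity
      nlinarith
    have h6 := Real.sqrt_le_sqrt h5
    rw [Real.sqrt_mul (by positivity), Real.sqrt_mul (by positivity), Real.sqrt_sq hC0.le,
      Real.sqrt_sq (by positivity)] at h6
    exact h6
  have h5 := abs_sub_le (Pool.Agent.Q74.BH.Ab k H L t a (Ph π G)) (CG (Fm π G) t 0)
    (act k (PP k ^ m) (CG (Fm π G) (t - m)) 0)
  rw [abs_sub_comm (CG (Fm π G) t 0)] at h5
  have h6 : |act k (PP k ^ m) (CG (Fm π G) (t - m)) 0 - CG (Fm π G) t 0| ≤ ε / 3 := h3.trans h4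
  linarith

end Pool.Agent.Q154.BH
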